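import Pool.Agent.U797.NL.Spec2

set_option autoImplicit false

/-!
# Project NL, part 2, package LEVEL: one level of the colouring
-/

namespace Pool.Agent.U454.NL

open Finset
open scoped Classical
open Pool.Agent.U797.LV (nb mem_nb)
open Pool.Agent.U797.NL

section

variable {V : Type} [Fintype V]

omit [Fintype V] in
theorem card_bi (s : Finset V) (f : V → Finset V) (a b : ℝ) (hs : (s.card : ℝ) ≤ a)
    (hf : ∀ y, ((f y).card : ℝ) ≤ b) (hb : 0 ≤ b) : ((s.biUnion f).card : ℝ) ≤ a * b := by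
  calc ((s.biUnion f).card : ℝ) ≤ ∑ y ∈ s, ((f y).card : ℝ) := by
        exact_mod_cast card_biUnion_le
    _ ≤ ∑ _y ∈ s, b := sum_le_sum fun y _ => hf y
    _ = (s.card : ℝ) * b := by rw [sum_const, nsmul_eq_mul]
    _ ≤ a * b := mul_le_mul_of_nonneg_right hs hb

/-- vertices at the end of a walk of length two -/
noncomputable def two (G : SimpleGraph V) (v : V) : Finset V := (nb G v).biUnion (nb G)

/-- vertices at the end of a walk of length three -/
noncomputable def three (G : SimpleGraph V) (v : V) : Finset V := (two G v).biUnion (nb G)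

/-- vertices at the end of a walk of length one or two -/
noncomputable def bl (G : SimpleGraph V) (v : V) : Finset V := nb G v ∪ two G v

theorem mem_two {G : SimpleGraph V} {v a : V} : a ∈ two G v ↔ ∃ y, G.Adj v y ∧ G.Adj y a := by
  unfold two
  rw [mem_biUnion]
  constructor
  · rintro ⟨y, h1, h2⟩
    exact ⟨y, mem_nb.1 h1, mem_nb.1 h2⟩
  · rintro ⟨y, h1, h2⟩
    exact ⟨y, mem_nb.2 h1, mem_nb.2 h2⟩

theorem mem_three {G : SimpleGraph V} {v a : V} :
    a ∈ three G v ↔ ∃ y u, G.Adj v y ∧ G.Adj y u ∧ G.Adj u a := by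
  unfold three
  rw [mem_biUnion]
  constructor
  · rintro ⟨u, h1, h2⟩
    obtain ⟨y, h3, h4⟩ := mem_two.1 h1
    exact ⟨y, u, h3, h4, mem_nb.1 h2⟩
  · rintro ⟨y, u, h1, h2, h3⟩
    exact ⟨u, mem_two.2 ⟨y, h1, h2⟩, mem_nb.2 h3⟩

theorem two_symm {G : SimpleGraph V} {v a : V} (h : a ∈ two G v) : v ∈ two G a := by
  rw [mem_two] at h ⊢
  obtain ⟨y, h1, h2⟩ := h
  exact ⟨y, h2.symm, h1.symm⟩

theorem three_symm {G : SimpleGraph V} {v a : V} (h : a ∈ three G v) : v ∈ three G a := by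
  rw [mem_three] at h ⊢
  obtain ⟨y, u, h1, h2, h3⟩ := h
  exact ⟨u, y, h3.symm, h2.symm, h1.symm⟩

theorem bl_symm {G : SimpleGraph V} {v a : V} (h : a ∈ bl G v) : v ∈ bl G a := by
  unfold bl at h ⊢
  rw [mem_union, mem_nb] at h ⊢
  rcases h with h | h
  · exact Or.inl h.symm
  · exact Or.inr (two_symm h)

theorem card_two {G : SimpleGraph V} {D : ℝ} (hD0 : 0 ≤ D) (hD : ∀ v, ((nb G v).card : ℝ) ≤ D)
    (v : V) : ((two G v).card : ℝ) ≤ D * D := card_bi _ _ _ _ (hD v) hD hD0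

theorem card_three {G : SimpleGraph V} {D : ℝ} (hD0 : 0 ≤ D) (hD : ∀ v, ((nb G v).card : ℝ) ≤ D)
    (v : V) : ((three G v).card : ℝ) ≤ D * D * D := card_bi _ _ _ _ (card_two hD0 hD v) hD hD0

theorem card_bl {G : SimpleGraph V} {D : ℝ} (hD0 : 0 ≤ D) (hD : ∀ v, ((nb G v).card : ℝ) ≤ D)
    (v : V) : ((bl G v).card : ℝ) ≤ D + D * D := by
  unfold bl
  calc ((nb G v ∪ two G v).card : ℝ) ≤ ((nb G v).card : ℝ) + ((two G v).card : ℝ) := by
        exact_mod_cast card_union_le _ _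
    _ ≤ D + D * D := add_le_add (hD v) (card_two hD0 hD v)

end

theorem t_LEVEL : S_BRW → S_LOC → S_LEVEL := by
  intro hBRW hLOC V _ G D t τ Q Λ K m ψ W Z R0 hD ht hτ hdeg hψQ hψ hZ hR0 hΛ hK hm
  rcases isEmpty_or_nonempty V with hV | hV
  · exact ⟨∅, fun _ => 0, empty_subset _, fun y => (hV.false y).elim, fun a => (hV.false a).elim⟩
  have hD0 : 0 ≤ D := by linarith
  obtain ⟨v0⟩ := id hV
  have hQ : 0 < Q := lt_of_le_of_lt (Nat.zero_le _) (hψQ v0 v0)
  have hQR : (0 : ℝ) < Q := by exact_mod_cast hQ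
  have : Nonempty (V × Fin Q) := ⟨(v0, ⟨0, hQ⟩)⟩
  set E : V × Fin Q → Finset V := fun c => (Z c.1).filter (fun y => ψ c.1 y = c.2) with hE
  set R : V × Fin Q → Finset V := fun c => (R0 c.1 ∩ two G c.1) \ E c with hR
  set B : V × Fin Q → Finset (V × Fin Q) := fun c => ({c.1} ∪ three G c.1) ×ˢ univ with hB
  have hden : 0 < (Q : ℝ) * (1 + D ^ 3) := by positivity
  set β : ℝ := 1 / ((Q : ℝ) * (1 + D ^ 3)) with hβ
  have hβ0 : 0 < β := by positivity
  set A : ℝ := t * D + 1 with hA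
  have hA0 : 0 < A := by positivity
  have memB : ∀ c c', c' ∈ B c ↔ c'.1 = c.1 ∨ c'.1 ∈ three G c.1 := by
    intro c c'
    rw [hB, mem_product, mem_union, mem_singleton]
    simp
  have hBsymm : ∀ c c', c' ∈ B c → c ∈ B c' := by
    intro c c' h
    rw [memB] at h ⊢
    rcases h with h | h
    · exact Or.inl h.symm
    · exact Or.inr (three_symm h)
  have hBcard : ∀ c, β * ((B c).card : ℝ) ≤ 1 := by
    intro c
    have h1 : ((B c).card : ℝ) ≤ (1 + D ^ 3) * Q := by
      rw [hB, card_product, Finset.card_univ, Fintype.card_fin]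
      push_cast
      refine mul_le_mul_of_nonneg_right ?_ hQR.le
      calc ((({c.1} ∪ three G c.1 : Finset V).card : ℕ) : ℝ) ≤
          ((({c.1} : Finset V).card : ℕ) : ℝ) + ((three G c.1).card : ℝ) := by
            exact_mod_cast card_union_le _ _
        _ ≤ 1 + D ^ 3 := by
            rw [card_singleton]
            have := card_three hD0 hdeg c.1
            have h2 : D * D * D = D ^ 3 := by ring
            rw [h2] at this
            push_cast
            linarith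
    rw [hβ, one_div, inv_mul_le_iff₀ hden]
    linarith
  obtain ⟨p, hp, hpc⟩ := hBRW (V × Fin Q) V E R B β A hβ0
    (fun c => (memB c c).2 (Or.inl rfl)) hBsymm (fun c => by
      have h1 : ((R c).card : ℝ) ≤ t * D := by
        refine le_trans ?_ (hR0 c.1)
        exact_mod_cast card_le_card (sdiff_subset.trans inter_subset_left)
      have h2 := hBcard c
      rw [hA]
      linarith)
  set S : V → Finset (V × Fin Q) := fun y => univ.filter (fun c => y ∈ E c) with hS
  set R' : V → Finset (V × Fin Q) := fun y => univ.filter (fun c => y ∈ R c) with hR'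
  have memS : ∀ y c, c ∈ S y ↔ y ∈ Z c.1 ∧ ψ c.1 y = c.2 := by
    intro y c
    rw [hS, mem_filter, hE, mem_filter]
    simp
  have memR' : ∀ y c, c ∈ R' y ↔ (y ∈ R0 c.1 ∧ y ∈ two G c.1) ∧ ¬ (y ∈ Z c.1 ∧ ψ c.1 y = c.2) := by
    intro y c
    rw [hR', mem_filter, hR, mem_sdiff, mem_inter, hE, mem_filter]
    simp
  have hZadj : ∀ a y, y ∈ Z a → G.Adj a y := by
    intro a y h
    exact mem_nb.1 (mem_inter.1 (hZ a h)).1
  -- the two terms
  have hsum0 : ∀ s : Finset (V × Fin Q), 0 ≤ ∑ c ∈ s, p c := fun s =>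
    sum_nonneg fun c _ => (hp c).le
  have hfirst : ∀ c, ∑ y ∈ E c, (∑ c' ∈ R' y, p c') / (∑ c' ∈ S y, p c') ≤ 2 * A := by
    intro c
    have h1 := hpc c
    have h2 : 0 ≤ β * (∑ c' ∈ B c, p c') / p c :=
      div_nonneg (mul_nonneg hβ0.le (hsum0 _)) (hp c).le
    have h3 : ∑ y ∈ E c, (∑ c' ∈ R' y, p c') / (∑ c' ∈ S y, p c') +
      β * (∑ c' ∈ B c, p c') / p c ≤ 2 * A := h1
    linarith
  have hsecond : ∀ c c', c' ∈ B c → p c' ≤ 2 * A / β * p c := by
    intro c c' h
    have h1 : ∑ y ∈ E c, (∑ c' ∈ R' y, p c') / (∑ c' ∈ S y, p c') +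
      β * (∑ c' ∈ B c, p c') / p c ≤ 2 * A := hpc c
    have h2 : 0 ≤ ∑ y ∈ E c, (∑ c' ∈ R' y, p c') / (∑ c' ∈ S y, p c') :=
      sum_nonneg fun y _ => div_nonneg (hsum0 _) (hsum0 _)
    have h3 : β * (∑ c' ∈ B c, p c') / p c ≤ 2 * A := by linarith
    rw [div_le_iff₀ (hp c)] at h3
    have h4 : p c' ≤ ∑ c' ∈ B c, p c' := single_le_sum (fun c _ => (hp c).le) h
    have h5 : β * p c' ≤ 2 * A * p c := le_trans (mul_le_mul_of_nonneg_left h4 hβ0.le) h3
    rw [div_mul_eq_mul_div, le_div_iff₀ hβ0]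
    linarith
  set Gd : Finset V := univ.filter (fun y => (S y).Nonempty ∧
    ∑ c ∈ R' y, p c ≤ τ * ∑ c ∈ S y, p c) with hGd
  have memGd : ∀ y, y ∈ Gd ↔ (S y).Nonempty ∧ ∑ c ∈ R' y, p c ≤ τ * ∑ c ∈ S y, p c := by
    intro y
    rw [hGd, mem_filter]
    simp
  have hmain := hLOC V (V × Fin Q) G.Adj Gd S R' p τ (D * (2 * A / β)) ⌊(D + D ^ 2) ^ 2⌋₊ K Λ m hp hτ
    (fun v hv => ((memGd v).1 hv).1) (fun v _ => by
      rw [Finset.disjoint_left]
      intro c h1 h2
      exact ((memR' v c).1 h2).2 ((memS v c).1 h1))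
    (fun v hv => ((memGd v).1 hv).2) (fun v u h => h.symm) (fun v hv u hu hvu => by
      obtain ⟨c0, hc0⟩ := ((memGd u).1 hu).1
      have h1 : ∀ c ∈ S v, p c ≤ 2 * A / β * ∑ c ∈ S u, p c := by
        intro c hc
        have h2 : c ∈ B c0 := by
          rw [memB]
          refine Or.inr (mem_three.2 ⟨u, v, ?_, hvu.symm, ?_⟩)
          · exact hZadj _ _ ((memS u c0).1 hc0).1
          · exact (hZadj _ _ ((memS v c).1 hc).1).symm
        refine le_trans (hsecond c0 c h2) ?_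
        exact mul_le_mul_of_nonneg_left (single_le_sum (fun c _ => (hp c).le) hc0) (by positivity)
      have h3 : ((S v).card : ℝ) ≤ D := by
        refine le_trans ?_ (hdeg v)
        have h4 : (S v).card ≤ (nb G v).card := by
          refine card_le_card_of_injOn (fun c => c.1) ?_ ?_
          · intro c hc
            exact mem_nb.2 (hZadj _ _ ((memS v c).1 hc).1).symm
          · intro c hc c' hc' h
            have h5 := ((memS v c).1 hc).2
            have h6 := ((memS v c').1 hc').2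
            refine Prod.ext h (Fin.ext ?_)
            simp only at h
            rw [← h5, ← h6, h]
        exact_mod_cast h4
      calc ∑ c ∈ S v, p c ≤ ∑ _c ∈ S v, 2 * A / β * ∑ c ∈ S u, p c := sum_le_sum h1
        _ = ((S v).card : ℝ) * (2 * A / β * ∑ c ∈ S u, p c) := by rw [sum_const, nsmul_eq_mul]
        _ ≤ D * (2 * A / β * ∑ c ∈ S u, p c) :=
            mul_le_mul_of_nonneg_right h3 (mul_nonneg (by positivity) (hsum0 _))
        _ = D * (2 * A / β) * ∑ c ∈ S u, p c := by ring)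
    (by
      refine le_trans (le_of_eq ?_) hΛ
      rw [hβ, hA]
      field_simp)
    (by
      have h1 : (1 : ℝ) ≤ (D + D ^ 2) ^ 2 := by
        have h2 : 1 ≤ D + D ^ 2 := by nlinarith
        nlinarith
      exact Nat.le_floor (by exact_mod_cast h1))
    (fun v _ => by
      refine ⟨(bl G v).biUnion (bl G), Nat.le_floor ?_, ?_⟩
      · have h1 := card_bi (bl G v) (bl G) _ _ (card_bl hD0 hdeg v) (fun y => card_bl hD0 hdeg y)
          (by positivity)
        refine le_trans h1 (le_of_eq ?_)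
        ring
      · have hb : ∀ v c, (c ∈ S v ∨ c ∈ R' v) → v ∈ bl G c.1 := by
          intro v c h
          unfold bl
          rw [mem_union]
          rcases h with h | h
          · exact Or.inl (mem_nb.2 (hZadj _ _ ((memS v c).1 h).1))
          · exact Or.inr ((memR' v c).1 h).1.2
        intro u _ c h1 h2
        rw [mem_biUnion]
        exact ⟨c.1, bl_symm (hb v c h1), hb u c h2⟩)
    (by
      have h1 : (4 : ℝ) * (⌊(D + D ^ 2) ^ 2⌋₊ : ℝ) ≤ 2 ^ K := by
        have h2 := Nat.floor_le (show (0 : ℝ) ≤ (D + D ^ 2) ^ 2 by positivity)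
        linarith
      exact_mod_cast h1) hm
  obtain ⟨f, hf⟩ := hmain
  refine ⟨Gd, f, fun y hy => ?_, fun y hy => ⟨(hf y hy).1, ?_⟩, fun a => ?_⟩
  · obtain ⟨c, hc⟩ := ((memGd y).1 hy).1
    exact (mem_inter.1 (hZ c.1 ((memS y c).1 hc).1)).2
  · obtain ⟨c, hc, hcf⟩ := (hf y hy).2
    have h1 := (memS y c).1 hc
    refine ⟨c.1, h1.1, fun v hv hyv hfv hvR => ?_⟩
    refine hcf v hv hyv hfv ((memR' v c).2 ⟨⟨hvR, ?_⟩, ?_⟩)
    · exact mem_two.2 ⟨y, hZadj _ _ h1.1, hyv⟩
    · rintro ⟨h2, h3⟩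
      exact hψ c.1 y v (hZadj _ _ h1.1) (hZadj _ _ h2) hyv (h1.2.trans h3.symm)
  · have hE1 : ∀ c, ((E c \ Gd).card : ℝ) ≤ 2 * A / τ := by
      intro c
      rw [le_div_iff₀ (by linarith : (0 : ℝ) < τ)]
      refine le_trans ?_ (hfirst c)
      have h1 : ∑ y ∈ E c \ Gd, τ ≤ ∑ y ∈ E c \ Gd, (∑ c' ∈ R' y, p c') / (∑ c' ∈ S y, p c') := by
        refine sum_le_sum fun y hy => ?_
        rw [mem_sdiff] at hy
        have h2 : c ∈ S y := by
          rw [hS, mem_filter]
          exact ⟨mem_univ _, hy.1⟩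
        have h3 : 0 < ∑ c' ∈ S y, p c' := sum_pos (fun c _ => hp c) ⟨c, h2⟩
        rw [le_div_iff₀ h3]
        by_contra h4
        exact hy.2 ((memGd y).2 ⟨⟨c, h2⟩, (not_le.1 h4).le⟩)
      rw [sum_const, nsmul_eq_mul] at h1
      refine le_trans h1 ?_
      exact sum_le_sum_of_subset_of_nonneg sdiff_subset fun y _ _ => div_nonneg (hsum0 _) (hsum0 _)
    have hcov : Z a \ Gd ⊆ (univ : Finset (Fin Q)).biUnion (fun j => E (a, j) \ Gd) := by
      intro y hy
      rw [mem_sdiff] at hy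
      rw [mem_biUnion]
      refine ⟨⟨ψ a y, hψQ a y⟩, mem_univ _, ?_⟩
      rw [mem_sdiff, hE, mem_filter]
      exact ⟨⟨hy.1, rfl⟩, hy.2⟩
    calc ((Z a \ Gd).card : ℝ) ≤
        (((univ : Finset (Fin Q)).biUnion (fun j => E (a, j) \ Gd)).card : ℝ) := by
          exact_mod_cast card_le_card hcov
      _ ≤ ∑ j : Fin Q, ((E (a, j) \ Gd).card : ℝ) := by
          exact_mod_cast card_biUnion_le
      _ ≤ ∑ _j : Fin Q, 2 * A / τ := sum_le_sum fun j _ => hE1 (a, j)
      _ = Q * (2 * A / τ) := by rw [sum_const, nsmul_eq_mul, Finset.card_univ, Fintype.card_fin]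
      _ = 2 * Q * (t * D + 1) / τ := by rw [hA]; ring

end Pool.Agent.U454.NL
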